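import Mathlib

set_option autoImplicit false

namespace Pool.Agent.Results.MP_053bca_co.NonabelianIff

open Subgroup

section odd
variable {G : Type*} [Group G]

lemma sq_pow_half (hodd : Odd (Nat.card G)) (x : G) : (x * x) ^ ((Nat.card G + 1) / 2) = x := by
  obtain ⟨k, hk⟩ := hodd
  have h1 : (Nat.card G + 1) / 2 = k + 1 := by omega
  rw [h1, ← pow_two, ← pow_mul]
  have h2 : 2 * (k + 1) = Nat.card G + 1 := by omega
  rw [h2, pow_succ, pow_card_eq_one', one_mul]

lemma pow_half_sq (hodd : Odd (Nat.card G)) (x : G) :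
    x ^ ((Nat.card G + 1) / 2) * x ^ ((Nat.card G + 1) / 2) = x := by
  rw [← (Commute.refl x).mul_pow, sq_pow_half hodd]

lemma sq_inj (hodd : Odd (Nat.card G)) {x y : G} (h : x * x = y * y) : x = y := by
  rw [← sq_pow_half hodd x, h, sq_pow_half hodd y]

end odd

/-- the chain misses exactly one symbol -/
lemma extend {G : Type*} [Group G] (hodd : Odd (Nat.card G)) (H : Subgroup G)
    (θ : Equiv.Perm H) (z : H) (hz : Set.range (fun x : H => x * θ x) = {z}ᶜ) :
    ∃ θ' : Equiv.Perm G, ∃ z' : G, Set.range (fun x : G => x * θ' x) = {z'}ᶜ := by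
  classical
  refine ⟨Equiv.Perm.ofSubtype θ, z, ?_⟩
  ext y
  simp only [Set.mem_range, Set.mem_compl_iff, Set.mem_singleton_iff]
  constructor
  · rintro ⟨x, rfl⟩
    by_cases hx : x ∈ H
    · rw [Equiv.Perm.ofSubtype_apply_of_mem θ hx]
      intro h
      have h1 : (⟨x, hx⟩ : H) * θ ⟨x, hx⟩ = z := Subtype.ext h
      have h2 : z ∈ Set.range (fun x : H => x * θ x) := ⟨_, h1⟩
      rw [hz] at h2
      exact h2 rfl
    · rw [Equiv.Perm.ofSubtype_apply_of_not_mem θ hx]
      intro h
      apply hx
      rw [← sq_pow_half hodd x, h]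
      exact H.pow_mem z.2 _
  · intro hy
    by_cases hyH : y ∈ H
    · have h2 : (⟨y, hyH⟩ : H) ∈ Set.range (fun x : H => x * θ x) := by
        rw [hz]
        intro h
        apply hy
        rw [Set.mem_singleton_iff] at h
        rw [← h]
      obtain ⟨x, hx⟩ := h2
      refine ⟨x, ?_⟩
      rw [Equiv.Perm.ofSubtype_apply_of_mem θ x.2]
      exact congrArg Subtype.val hx
    · refine ⟨y ^ ((Nat.card G + 1) / 2), ?_⟩
      have hs : y ^ ((Nat.card G + 1) / 2) ∉ H := by
        intro h
        apply hyH
        rw [← pow_half_sq hodd y]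
        exact H.mul_mem h h
      rw [Equiv.Perm.ofSubtype_apply_of_not_mem θ hs]
      exact pow_half_sq hodd y

/-- abelian groups of odd order have no such chain -/
lemma abelian {G : Type*} [CommGroup G] [Finite G] (hodd : Odd (Nat.card G))
    (θ : Equiv.Perm G) (z : G) (hz : Set.range (fun x : G => x * θ x) = {z}ᶜ) : False := by
  classical
  have := Fintype.ofFinite G
  set f : G → G := fun x => x * θ x with hf
  have hp : (∏ x : G, x) = 1 := by
    have h1 : (∏ x : G, x) = (∏ x : G, x)⁻¹ := by
      rw [← Finset.prod_inv_distrib]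
      exact (Equiv.prod_comp (Equiv.inv G) (fun x => x)).symm
    apply sq_inj hodd
    nth_rewrite 2 [h1]
    simp
  have hfp : (∏ x : G, f x) = 1 := by
    simp only [hf]
    rw [Finset.prod_mul_distrib, Equiv.prod_comp θ (fun x => x), hp, one_mul]
  have hns : ¬ Function.Surjective f := by
    intro hs
    rw [← Set.range_eq_univ, hz] at hs
    have : z ∈ ({z}ᶜ : Set G) := by rw [hs]; trivial
    exact this rfl
  have hni : ¬ Function.Injective f := fun hi => hns (Finite.surjective_of_injective hi)
  have hni' : ∃ u v, f u = f v ∧ u ≠ v := by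
    unfold Function.Injective at hni
    push Not at hni
    exact hni
  obtain ⟨u, v, huv, hne⟩ := hni'
  have himg : (Finset.univ.erase u).image f = Finset.univ.erase z := by
    ext y
    simp only [Finset.mem_image, Finset.mem_erase, Finset.mem_univ, and_true]
    have hy : y ∈ Set.range f ↔ y ≠ z := by
      rw [hz]; simp
    rw [← hy]
    constructor
    · rintro ⟨x, _, rfl⟩
      exact ⟨x, rfl⟩
    · rintro ⟨x, rfl⟩
      by_cases hxu : x = u
      · exact ⟨v, fun h => hne h.symm, by rw [hxu, huv]⟩
      · exact ⟨x, hxu, rfl⟩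
  have hinj : Set.InjOn f (Finset.univ.erase u : Finset G) := by
    rw [← Finset.card_image_iff, himg, Finset.card_erase_of_mem (Finset.mem_univ _),
      Finset.card_erase_of_mem (Finset.mem_univ _)]
  have h1 : ∏ x ∈ Finset.univ.erase u, f x = ∏ y ∈ Finset.univ.erase z, y := by
    rw [← himg, Finset.prod_image hinj]
  have h2 : f u * ∏ x ∈ Finset.univ.erase u, f x = 1 := by
    rw [Finset.mul_prod_erase _ _ (Finset.mem_univ u), hfp]
  have h3 : z * ∏ y ∈ Finset.univ.erase z, y = 1 := by
    rw [Finset.mul_prod_erase _ (fun y => y) (Finset.mem_univ z), hp]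
  rw [h1] at h2
  have h4 : f u = z := mul_right_cancel (h2.trans h3.symm)
  have h5 : z ∈ Set.range f := ⟨u, h4⟩
  rw [hz] at h5
  exact h5 rfl

/-- the left correction elements -/
def aa {G : Type*} [Group G] (γ n : G) : ℕ → G
  | 0 => 1
  | 1 => γ * n
  | k + 2 => γ ^ (k + 2)

/-- the right correction elements -/
def bb {G : Type*} [Group G] (γ n : G) : ℕ → G
  | 0 => 1
  | 1 => n⁻¹ * γ
  | 2 => γ ^ 2
  | k + 3 => γ ^ k * n⁻¹ * γ ^ 3

lemma ab_eq {G : Type*} [Group G] (γ n : G) (k : ℕ) :
    aa γ n k * bb γ n (k + 2) = aa γ n (k + 1) * bb γ n (k + 1) := by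
  match k with
  | 0 => simp [aa, bb, pow_two, mul_assoc]
  | 1 =>
    simp only [aa, bb]
    group
  | 2 =>
    simp only [aa, bb]
    group
  | k + 3 =>
    simp only [aa, bb]
    rw [show γ ^ (k + 1 + 2) = γ ^ (k + 3) by ring_nf]
    simp only [← mul_assoc, ← pow_add]
    congr 3
    omega

/-- the construction over a cyclic quotient -/
lemma build {G : Type*} [Group G] [Finite G] (hodd : Odd (Nat.card G)) (r : ℕ) (hr : 3 ≤ r)
    (hro : Odd r) (π : G → ZMod r) (hmul : ∀ x y, π (x * y) = π x + π y)
    (γ n : G) (hγ : π γ = 1) (hn : π n = 0) (hnc : γ * n ≠ n * γ) :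
    ∃ θ' : Equiv.Perm G, ∃ z' : G, Set.range (fun x : G => x * θ' x) = {z'}ᶜ := by
  classical
  have : NeZero r := ⟨by omega⟩
  have h1 : π 1 = 0 := by
    have := hmul 1 1
    rw [mul_one] at this
    exact (left_eq_add.mp this)
  have hinv : ∀ x, π x⁻¹ = - π x := by
    intro x
    have := hmul x⁻¹ x
    rw [inv_mul_cancel, h1] at this
    exact (neg_eq_of_add_eq_zero_left this.symm).symm
  have hpow : ∀ x (k : ℕ), π (x ^ k) = k * π x := by
    intro x k
    induction k with
    | zero => simp [h1]
    | succ k ih => rw [pow_succ, hmul, ih]; push_cast; ring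
  have haa : ∀ k : ℕ, π (aa γ n k) = k := by
    intro k
    match k with
    | 0 => simp [aa, h1]
    | 1 => simp [aa, hmul, hγ, hn]
    | k + 2 => simp [aa, hpow, hγ]
  have hbb : ∀ k : ℕ, π (bb γ n (k + 1)) = (k + 1 : ℕ) := by
    intro k
    match k with
    | 0 => simp [bb, hmul, hγ, hn, hinv]
    | 1 => simp [bb, hpow, hγ]
    | k + 2 =>
      simp only [bb, hmul, hpow, hγ, hinv, hn]
      push_cast
      ring
  let A : ZMod r → G := fun k => aa γ n k.val
  let B : ZMod r → G := fun k => if k = 0 then bb γ n r else bb γ n k.val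
  have hA : ∀ k, π (A k) = k := by
    intro k
    simp only [A, haa]
    exact ZMod.natCast_zmod_val k
  have hB : ∀ k, π (B k) = k := by
    intro k
    simp only [B]
    split_ifs with hk
    · obtain ⟨s, rfl⟩ : ∃ s, r = s + 1 := ⟨r - 1, by omega⟩
      rw [hbb, hk]
      exact ZMod.natCast_self _
    · have hv : k.val ≠ 0 := by
        rwa [Ne, ZMod.val_eq_zero]
      obtain ⟨s, hs⟩ : ∃ s, k.val = s + 1 := ⟨k.val - 1, by omega⟩
      rw [hs, hbb, ← hs]
      exact ZMod.natCast_zmod_val k
  have hval : ∀ v : ℕ, v < r → ((v : ℕ) : ZMod r).val = v := fun v hv => ZMod.val_cast_of_lt hv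
  have hE : ∀ k : ZMod r, k ≠ 0 → A (k - 1) * B (k + 1) = A k * B k := by
    intro k hk
    have hv0 : k.val ≠ 0 := by rwa [Ne, ZMod.val_eq_zero]
    obtain ⟨s, hs⟩ : ∃ s, k.val = s + 1 := ⟨k.val - 1, by omega⟩
    have hlt : s + 1 < r := hs ▸ ZMod.val_lt k
    have hk' : k = ((s + 1 : ℕ) : ZMod r) := by
      rw [← hs]; exact (ZMod.natCast_zmod_val k).symm
    have hkm : k - 1 = ((s : ℕ) : ZMod r) := by
      rw [hk']; push_cast; ring
    have hAkm : A (k - 1) = aa γ n s := by
      simp only [A]
      rw [hkm, hval s (by omega)]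
    have hAk : A k = aa γ n (s + 1) := by
      simp only [A]
      rw [hs]
    have hBk : B k = bb γ n (s + 1) := by
      simp only [B]
      rw [if_neg hk, hs]
    have hBkp : B (k + 1) = bb γ n (s + 2) := by
      simp only [B]
      have hkp : k + 1 = ((s + 2 : ℕ) : ZMod r) := by
        rw [hk']; push_cast; ring
      by_cases hsr : s + 2 = r
      · rw [if_pos, hsr]
        rw [hkp, hsr]
        exact ZMod.natCast_self r
      · rw [if_neg]
        · rw [hkp, hval (s + 2) (by omega)]
        · rw [hkp]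
          intro h
          have := hval (s + 2) (by omega)
          rw [h, ZMod.val_zero] at this
          omega
    rw [hAkm, hAk, hBk, hBkp]
    exact ab_eq γ n s
  have hne : A (-1) * B 1 ≠ A 0 * B 0 := by
    have hA1 : A (-1) = γ ^ (r - 1) := by
      simp only [A]
      have hm1 : (-1 : ZMod r) = ((r - 1 : ℕ) : ZMod r) := by
        have : ((r - 1 : ℕ) : ZMod r) + 1 = 0 := by
          have h2 : (r - 1) + 1 = r := by omega
          calc ((r - 1 : ℕ) : ZMod r) + 1 = (((r - 1) + 1 : ℕ) : ZMod r) := by push_cast; ring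
            _ = 0 := by rw [h2]; exact ZMod.natCast_self r
        exact (eq_neg_of_add_eq_zero_left this).symm
      rw [hm1, hval (r - 1) (by omega)]
      obtain ⟨s, hs⟩ : ∃ s, r - 1 = s + 2 := ⟨r - 3, by omega⟩
      rw [hs]
      rfl
    have h1v : (1 : ZMod r).val = 1 := by
      have := hval 1 (by omega)
      simpa using this
    have h10 : (1 : ZMod r) ≠ 0 := by
      intro h
      rw [h, ZMod.val_zero] at h1v
      omega
    have hB1 : B 1 = n⁻¹ * γ := by
      simp only [B]
      rw [if_neg h10, h1v]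
      rfl
    have hA0 : A 0 = 1 := by
      simp only [A]
      rw [ZMod.val_zero]
      rfl
    have hB0 : B 0 = γ ^ (r - 3) * n⁻¹ * γ ^ 3 := by
      simp only [B]
      rw [if_pos trivial]
      obtain ⟨s, hs⟩ : ∃ s, r = s + 3 := ⟨r - 3, by omega⟩
      rw [show r - 3 = s by omega]
      subst hs
      rfl
    rw [hA1, hB1, hA0, hB0, one_mul]
    intro h
    have h2 : r - 1 = (r - 3) + 2 := by omega
    rw [h2, pow_add, mul_assoc, mul_assoc] at h
    have h3 := mul_left_cancel h
    have h4 : γ ^ 2 * n⁻¹ = n⁻¹ * γ ^ 2 := by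
      have h5 : γ ^ 2 * n⁻¹ * γ = n⁻¹ * γ ^ 2 * γ := by
        rw [mul_assoc, h3, mul_assoc, ← pow_succ]
      exact mul_right_cancel h5
    have h6 : Commute (γ ^ 2) n⁻¹ := h4
    have h7 : Commute (γ ^ 2) n := by simpa using h6.inv_right
    have h8 : Commute ((γ * γ) ^ ((Nat.card G + 1) / 2)) n := by
      apply Commute.pow_left
      rw [← pow_two]
      exact h7
    rw [sq_pow_half hodd] at h8
    exact hnc h8
  -- the bijection
  let θ₀ : G → G := fun x => x * (A (π x))⁻¹ * B (π x)
  have hπ0 : ∀ x, π (θ₀ x) = π x := by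
    intro x
    simp only [θ₀, hmul, hinv, hA, hB]
    ring
  have hθ0A : ∀ x, θ₀ x = B (π x) → x = A (π x) := by
    intro x hx
    simp only [θ₀] at hx
    have : x * (A (π x))⁻¹ = 1 := by
      have h2 : x * (A (π x))⁻¹ * B (π x) = 1 * B (π x) := by rw [hx, one_mul]
      exact mul_right_cancel h2
    exact eq_of_mul_inv_eq_one this
  let θ : G → G := fun x => if x = A (π x) then B (π x + 2) else θ₀ x
  have hθinj : Function.Injective θ := by
    intro x y hxy
    simp only [θ] at hxy
    split_ifs at hxy with hx hy hy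
    · have h2 := congrArg π hxy
      rw [hB, hB] at h2
      have h3 : π x = π y := add_right_cancel h2
      rw [hx, hy, h3]
    · exfalso
      have h2 := congrArg π hxy
      rw [hB, hπ0] at h2
      rw [h2] at hxy
      exact hy (hθ0A y hxy.symm)
    · exfalso
      have h2 := congrArg π hxy
      rw [hB, hπ0] at h2
      rw [← h2] at hxy
      exact hx (hθ0A x hxy)
    · have h2 := congrArg π hxy
      rw [hπ0, hπ0] at h2
      simp only [θ₀, h2] at hxy
      exact mul_right_cancel (mul_right_cancel hxy)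
  have h2inj : ∀ a b : ZMod r, a + a = b + b → a = b := by
    intro a b hab
    obtain ⟨m, hm⟩ := hro
    have hm' : ((2 * m + 1 : ℕ) : ZMod r) = 0 := by rw [← hm]; exact ZMod.natCast_self r
    push_cast at hm'
    have e1 : a = ((m : ZMod r) + 1) * (a + a) - (2 * m + 1) * a := by ring
    have e2 : b = ((m : ZMod r) + 1) * (b + b) - (2 * m + 1) * b := by ring
    rw [e1, e2, hab, hm', zero_mul, zero_mul]
  let f₀ : G → G := fun x => x * θ₀ x
  have hf0inj : Function.Injective f₀ := by
    intro x y hxy
    have hxy' : x * θ₀ x = y * θ₀ y := hxy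
    have h2 := congrArg π hxy'
    rw [hmul x (θ₀ x), hmul y (θ₀ y), hπ0, hπ0] at h2
    have h3 := h2inj _ _ h2
    simp only [θ₀, h3] at hxy'
    have h4 : x * x = y * y := by
      have h5 : x * x * ((A (π y))⁻¹ * B (π y)) = y * y * ((A (π y))⁻¹ * B (π y)) := by
        simpa [mul_assoc] using hxy'
      exact mul_right_cancel h5
    exact sq_inj hodd h4
  have hf0surj : Function.Surjective f₀ := Finite.surjective_of_injective hf0inj
  have hf0A : ∀ k, f₀ (A k) = A k * B k := by
    intro k
    simp only [f₀, θ₀, hA]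
    group
  refine ⟨Equiv.ofBijective θ (Finite.injective_iff_bijective.mp hθinj), A 0 * B 0, ?_⟩
  ext y
  simp only [Set.mem_range, Set.mem_compl_iff, Set.mem_singleton_iff, Equiv.ofBijective_apply]
  constructor
  · rintro ⟨x, rfl⟩ h
    by_cases hx : x = A (π x)
    · have hθx : θ x = B (π x + 2) := by simp only [θ]; rw [if_pos hx]
      rw [hθx] at h
      have h2 := congrArg π h
      rw [hmul, hmul, hA, hB, hB] at h2
      have h3 : π x + 1 = 0 := by
        apply h2inj
        linear_combination h2
      have h4 : π x = -1 := eq_neg_of_add_eq_zero_left h3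
      rw [h4] at hx h
      rw [hx] at h
      apply hne
      rw [← h]
      congr 2
      ring
    · have hθx : θ x = θ₀ x := by simp only [θ]; rw [if_neg hx]
      rw [hθx] at h
      rw [← hf0A 0] at h
      have h2 := hf0inj h
      apply hx
      rw [h2, hA]
  · intro hy
    obtain ⟨x, hx⟩ := hf0surj y
    by_cases hxs : x = A (π x)
    · set k := π x with hk
      have hyk : y = A k * B k := by rw [← hx, hxs]; exact hf0A k
      have hk0 : k ≠ 0 := by
        intro h
        rw [h] at hyk
        exact hy hyk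
      refine ⟨A (k - 1), ?_⟩
      have hθx : θ (A (k - 1)) = B (k - 1 + 2) := by
        simp only [θ, hA]
        rw [if_pos trivial]
      rw [hθx, show k - 1 + 2 = k + 1 by ring, hE k hk0, hyk]
    · refine ⟨x, ?_⟩
      have hθx : θ x = θ₀ x := by simp only [θ]; rw [if_neg hxs]
      rw [hθx]
      exact hx


/-- from a non-perfect nonabelian group of odd order -/
lemma of_not_perfect {G : Type*} [Group G] [Finite G] (hodd : Odd (Nat.card G))
    (hcomm : commutator G ≠ ⊤) (hnab : ∃ a b : G, a * b ≠ b * a) :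
    ∃ θ' : Equiv.Perm G, ∃ z' : G, Set.range (fun x : G => x * θ' x) = {z'}ᶜ := by
  classical
  obtain ⟨N, hN, hle⟩ := (eq_top_or_exists_le_coatom (commutator G)).resolve_left hcomm
  have hnormal : N.Normal := by
    constructor
    intro n hn g
    have h1 : g * n * g⁻¹ * n⁻¹ ∈ N := hle (by
      have := Subgroup.commutator_mem_commutator (Subgroup.mem_top g) (Subgroup.mem_top n)
      exact this)
    have h2 := N.mul_mem h1 hn
    simpa using h2
  -- the quotient is cyclic
  have hcyc : IsCyclic (G ⧸ N) := by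
    have hex : ∃ g : G, g ∉ N := by
      by_contra hcon
      push Not at hcon
      exact hN.1 (eq_top_iff.mpr fun x _ => hcon x)
    obtain ⟨g, hg⟩ := hex
    have hsup : N ⊔ zpowers g = ⊤ := by
      apply hN.2
      refine lt_of_le_of_ne le_sup_left ?_
      intro h
      apply hg
      rw [h]
      exact (le_sup_right : zpowers g ≤ N ⊔ zpowers g) (mem_zpowers g)
    refine ⟨⟨(g : G ⧸ N), ?_⟩⟩
    intro x
    obtain ⟨x, rfl⟩ := QuotientGroup.mk_surjective x
    have hx : x ∈ N ⊔ zpowers g := by rw [hsup]; trivial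
    rw [Subgroup.mem_sup_of_normal_left] at hx
    obtain ⟨y, hy, z, hz, rfl⟩ := hx
    rw [mem_zpowers_iff] at hz
    obtain ⟨k, rfl⟩ := hz
    refine ⟨k, ?_⟩
    have : ((y : G) : G ⧸ N) = 1 := (QuotientGroup.eq_one_iff y).mpr hy
    rw [QuotientGroup.mk_mul, this, one_mul]
    rfl
  set r := Nat.card (G ⧸ N) with hr
  have hdvd : r ∣ Nat.card G := by
    rw [Subgroup.card_eq_card_quotient_mul_card_subgroup N]
    exact Dvd.intro _ rfl
  have hro : Odd r := Odd.of_dvd_nat hodd hdvd
  have hr1 : r ≠ 1 := by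
    intro h
    have : N = ⊤ := by
      rw [← Subgroup.index_eq_one]
      exact h
    exact hN.1 this
  have hr3 : 3 ≤ r := by
    obtain ⟨m, hm⟩ := hro
    omega
  let e := zmodCyclicMulEquiv hcyc
  let π : G → ZMod r := fun x => Multiplicative.toAdd (e.symm (x : G ⧸ N))
  have hmul : ∀ x y, π (x * y) = π x + π y := by
    intro x y
    simp only [π]
    rw [QuotientGroup.mk_mul, map_mul]
    rfl
  have hsurj : Function.Surjective π := by
    intro k
    obtain ⟨x, hx⟩ := QuotientGroup.mk_surjective (e (Multiplicative.ofAdd k))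
    refine ⟨x, ?_⟩
    simp only [π]
    rw [hx, MulEquiv.symm_apply_apply]
    rfl
  by_contra hcon
  have hc : ∀ γ n : G, π γ = 1 → π n = 0 → γ * n = n * γ := by
    intro γ n hγ hn
    by_contra hne
    exact hcon (build hodd r hr3 hro π hmul γ n hγ hn hne)
  obtain ⟨γ, hγ⟩ := hsurj 1
  have h1 : π 1 = 0 := by
    have := hmul 1 1
    rw [mul_one] at this
    exact (left_eq_add.mp this)
  have hinv : ∀ x, π x⁻¹ = - π x := by
    intro x
    have := hmul x⁻¹ x
    rw [inv_mul_cancel, h1] at this
    exact (neg_eq_of_add_eq_zero_left this.symm).symm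
  have hpow : ∀ x (k : ℕ), π (x ^ k) = k * π x := by
    intro x k
    induction k with
    | zero => simp [h1]
    | succ k ih => rw [pow_succ, hmul, ih]; push_cast; ring
  have hker : ∀ n m : G, π n = 0 → π m = 0 → n * m = m * n := by
    intro n m hn hm
    have h2 := hc (γ * n) m (by rw [hmul, hγ, hn, add_zero]) hm
    have h3 := hc γ m hγ hm
    rw [mul_assoc, ← mul_assoc m γ n, ← h3, mul_assoc] at h2
    exact mul_left_cancel h2
  have : NeZero r := ⟨by omega⟩
  have hdec : ∀ x : G, ∃ k : ℕ, ∃ m : G, π m = 0 ∧ x = γ ^ k * m := by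
    intro x
    refine ⟨(π x).val, (γ ^ (π x).val)⁻¹ * x, ?_, by group⟩
    rw [hmul, hinv, hpow, hγ, ZMod.natCast_zmod_val]
    ring
  obtain ⟨a, b, hab⟩ := hnab
  apply hab
  obtain ⟨k, m, hm, rfl⟩ := hdec a
  obtain ⟨l, n, hn, rfl⟩ := hdec b
  have c1 : Commute γ m := hc γ m hγ hm
  have c2 : Commute γ n := hc γ n hγ hn
  have c3 : Commute m n := hker m n hm hn
  have d1 : Commute (γ ^ k) (γ ^ l * n) :=
    ((Commute.refl γ).pow_pow k l).mul_right (c2.pow_left k)
  have d2 : Commute m (γ ^ l * n) := ((c1.pow_left l).symm).mul_right c3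
  exact d1.mul_left d2

/-- a nonabelian group all of whose proper subgroups are abelian is not perfect -/
lemma not_perfect {G : Type*} [Group G] [Finite G] (hnab : ∃ a b : G, a * b ≠ b * a)
    (hsub : ∀ H : Subgroup G, H ≠ ⊤ → ∀ a ∈ H, ∀ b ∈ H, a * b = b * a) :
    commutator G ≠ ⊤ := by
  classical
  have hnt : Nontrivial G := by
    obtain ⟨a, b, hab⟩ := hnab
    by_contra hcon
    rw [not_nontrivial_iff_subsingleton] at hcon
    exact hab (Subsingleton.elim _ _)
  have hcard : Nat.card G ≠ 1 := by
    intro h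
    have := (Nat.card_eq_one_iff_unique.mp h).1
    exact not_subsingleton G this
  obtain ⟨p, hp, hpd⟩ := Nat.exists_prime_and_dvd hcard
  have : Fact p.Prime := ⟨hp⟩
  obtain ⟨P⟩ : Nonempty (Sylow p G) := inferInstance
  have hPbot : (P : Subgroup G) ≠ ⊥ := P.ne_bot_of_dvd_card hpd
  by_cases hPtop : (P : Subgroup G) = ⊤
  · -- p-group
    have hpg : IsPGroup p G := by
      have h1 : IsPGroup p (P : Subgroup G) := P.2
      rw [hPtop] at h1
      exact IsPGroup.of_surjective h1 (Subgroup.topEquiv : (⊤ : Subgroup G) ≃* G).toMonoidHom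
        (Subgroup.topEquiv : (⊤ : Subgroup G) ≃* G).surjective
    have hnil : Group.IsNilpotent G := hpg.isNilpotent
    have hsol : Group.IsSolvable G := inferInstance
    exact ne_of_lt (Group.IsSolvable.commutator_lt_top_of_nontrivial G)
  · by_cases hNC : Subgroup.normalizer (P : Set G) ≤ Subgroup.centralizer (P : Set G)
    · intro htop
      have hcompl := MonoidHom.ker_transferSylow_isComplement' P hNC
      have hPc : ∀ a b : P, a * b = b * a := by
        intro a b
        exact Subtype.ext (hsub P hPtop a a.2 b b.2)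
      have hle : commutator G ≤ (MonoidHom.transferSylow P hNC).ker := by
        rw [_root_.commutator_def, Subgroup.commutator_le]
        intro a _ b _
        rw [MonoidHom.mem_ker, map_commutatorElement, commutatorElement_eq_one_iff_mul_comm]
        exact hPc _ _
      rw [htop, top_le_iff] at hle
      rw [hle] at hcompl
      have h2 := hcompl.disjoint
      rw [top_disjoint] at h2
      exact hPbot h2
    · rw [SetLike.not_le_iff_exists] at hNC
      obtain ⟨y, hyN, hyC⟩ := hNC
      rw [Subgroup.mem_centralizer_iff] at hyC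
      push Not at hyC
      obtain ⟨x, hxP, hxy⟩ := hyC
      have hN : Subgroup.normalizer (((P : Subgroup G) : Subgroup G) : Set G) = ⊤ := by
        by_contra hcon
        exact hxy (hsub _ hcon x (Subgroup.le_normalizer hxP) y hyN)
      have hPn : (P : Subgroup G).Normal := Subgroup.normalizer_eq_top_iff.mp hN
      have hK : (P : Subgroup G) ⊔ zpowers y = ⊤ := by
        by_contra hcon
        exact hxy (hsub _ hcon x ((le_sup_left : (P : Subgroup G) ≤ _) hxP) y
          ((le_sup_right : zpowers y ≤ (P : Subgroup G) ⊔ zpowers y) (mem_zpowers y)))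
      have hcyc : IsCyclic (G ⧸ (P : Subgroup G)) := by
        refine ⟨⟨(y : G ⧸ (P : Subgroup G)), ?_⟩⟩
        intro x
        obtain ⟨x, rfl⟩ := QuotientGroup.mk_surjective x
        have hx : x ∈ (P : Subgroup G) ⊔ zpowers y := by rw [hK]; trivial
        rw [Subgroup.mem_sup_of_normal_left] at hx
        obtain ⟨u, hu, z, hz, rfl⟩ := hx
        rw [mem_zpowers_iff] at hz
        obtain ⟨k, rfl⟩ := hz
        refine ⟨k, ?_⟩
        have : ((u : G) : G ⧸ (P : Subgroup G)) = 1 := (QuotientGroup.eq_one_iff u).mpr hu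
        rw [QuotientGroup.mk_mul, this, one_mul]
        rfl
      have hle : commutator G ≤ (P : Subgroup G) := by
        apply Subgroup.Normal.quotient_commutative_iff_commutator_le.mp
        exact hcyc.isMulCommutative
      intro htop
      rw [htop, top_le_iff] at hle
      exact hPtop hle

/-- existence in every nonabelian group of odd order -/
lemma nonabelian_exists : ∀ (k : ℕ) (G : Type*) [Group G] [Finite G], Nat.card G = k →
    Odd (Nat.card G) → (∃ a b : G, a * b ≠ b * a) →
    ∃ θ' : Equiv.Perm G, ∃ z' : G, Set.range (fun x : G => x * θ' x) = {z'}ᶜ := by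
  intro k
  induction k using Nat.strong_induction_on with
  | _ k ih =>
    intro G _ _ hk hodd hnab
    by_cases hsub : ∀ H : Subgroup G, H ≠ ⊤ → ∀ a ∈ H, ∀ b ∈ H, a * b = b * a
    · exact of_not_perfect hodd (not_perfect hnab hsub) hnab
    · push Not at hsub
      obtain ⟨H, hH, a, ha, b, hb, hab⟩ := hsub
      have hlt : Nat.card H < k := by
        rw [← hk]
        have h1 := Subgroup.card_le_card_group H
        refine lt_of_le_of_ne h1 ?_
        intro h
        exact hH (Subgroup.eq_top_of_card_eq H h)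
      have hoH : Odd (Nat.card H) := Odd.of_dvd_nat hodd (Subgroup.card_subgroup_dvd_card H)
      obtain ⟨θ, z, hz⟩ := ih (Nat.card H) hlt H rfl hoH
        ⟨⟨a, ha⟩, ⟨b, hb⟩, fun h => hab (congrArg Subtype.val h)⟩
      exact extend hodd H θ z hz

/-- **Main result.** A finite group of odd order has a chain of rank `n - 1` in its Cayley table
if and only if it is not abelian. -/
theorem result (G : Type*) [Group G] [Finite G] (hodd : Odd (Nat.card G)) :
    (∃ θ : Equiv.Perm G, (Set.range fun x : G => x * θ x).ncard = Nat.card G - 1) ↔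
      ∃ a b : G, a * b ≠ b * a := by
  constructor
  · rintro ⟨θ, hθ⟩
    by_contra hcon
    push Not at hcon
    let _ : CommGroup G := { (inferInstance : Group G) with mul_comm := hcon }
    have hpos : 0 < Nat.card G := Nat.card_pos
    have hc : ((Set.range fun x : G => x * θ x)ᶜ).ncard = 1 := by
      rw [Set.ncard_compl, hθ]
      omega
    rw [Set.ncard_eq_one] at hc
    obtain ⟨z, hz⟩ := hc
    have hz' : (Set.range fun x : G => x * θ x) = {z}ᶜ := by
      rw [← hz, compl_compl]
    exact abelian hodd θ z hz'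
  · intro hnab
    obtain ⟨θ, z, hz⟩ := nonabelian_exists (Nat.card G) G rfl hodd hnab
    refine ⟨θ, ?_⟩
    rw [hz, Set.ncard_compl, Set.ncard_singleton]

end Pool.Agent.Results.MP_053bca_co.NonabelianIff
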